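import Pool.Agent.H67.SM.NRCa

/-!
Row NRC of the board sm: the characters `χ ∘ N` are primitive ray class characters.
-/

set_option autoImplicit false

open NumberField NumberField.InfinitePlace Complex

namespace Pool.Agent.H67.SM

open Pool.Agent.H28.RC Pool.Agent.H25.HK Pool.Agent.H37.CV Pool.Agent.H20.SM

section one

variable {F : Type} [Field F] [NumberField F]

theorem nrc_charP (p : ℕ) (hp : p.Prime) (P : Ideal (𝓞 F)) (hP : P.IsPrime)
    (hpP : (p : 𝓞 F) ∈ P) : CharP (𝓞 F ⧸ P) p := by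
  have := Ideal.Quotient.nontrivial_iff.2 hP.ne_top
  rw [CharP.charP_iff_prime_eq_zero hp, ← map_natCast (Ideal.Quotient.mk P)]
  exact Ideal.Quotient.eq_zero_iff_mem.2 hpP

/-- for each class `u` modulo `p` there is `c` whose norm is `u` modulo `P` -/
theorem nrc_surj (p : ℕ) [hp : Fact p.Prime] (P : Ideal (𝓞 F)) (hP : P.IsPrime)
    (hpP : (p : 𝓞 F) ∈ P) [Algebra (ZMod p) (𝓞 F ⧸ P)] (u : ZMod p) :
    ∃ c : 𝓞 F, Algebra.norm (ZMod p) (Ideal.Quotient.mk P c) = u := by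
  have hP0 : P ≠ ⊥ := by
    rintro rfl
    rw [Ideal.mem_bot] at hpP
    exact hp.out.ne_zero (by exact_mod_cast hpP)
  have hmax : P.IsMaximal := hP.isMaximal hP0
  letI : Field (𝓞 F ⧸ P) := Ideal.Quotient.field P
  have : Finite (𝓞 F ⧸ P) := Ideal.finiteQuotientOfFreeOfNeBot P hP0
  obtain ⟨x, hx⟩ := FiniteField.norm_surjective (ZMod p) (𝓞 F ⧸ P) u
  obtain ⟨c, rfl⟩ := Ideal.Quotient.mk_surjective x
  exact ⟨c, hx⟩

open UniqueFactorizationMonoid in
theorem nrc_sqfree (q : ℕ) (hq : q.Prime) (hd : ¬ ((q : ℤ) ∣ discr F)) :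
    Squarefree (qi F q) := by
  classical
  have hq0 : qi F q ≠ ⊥ := by
    unfold qi
    rw [Ne, Ideal.span_singleton_eq_bot]
    exact_mod_cast hq.ne_zero
  have hmap : (Ideal.span {(q : ℤ)}).map (algebraMap ℤ (𝓞 F)) = qi F q := by
    unfold qi
    rw [Ideal.map_span, Set.image_singleton]
    simp
  have hun := (NumberField.not_dvd_discr_iff_forall_mem F (𝓞 F)
    (Nat.prime_iff_prime_int.1 hq)).1 hd
  rw [squarefree_iff_nodup_normalizedFactors hq0, Multiset.nodup_iff_count_le_one]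
  intro P
  by_cases hP : P ∈ normalizedFactors (qi F q)
  · have hPp : P.IsPrime := Ideal.isPrime_of_prime (prime_of_normalized_factor P hP)
    have hle : qi F q ≤ P := Ideal.le_of_dvd (dvd_of_mem_normalizedFactors hP)
    have hmem : ((q : ℤ) : 𝓞 F) ∈ P := by
      refine hle ?_
      unfold qi
      rw [Int.cast_natCast]
      exact Ideal.mem_span_singleton_self _
    have h1 := hun P hPp hmem
    have hlo : P.LiesOver (Ideal.span {(q : ℤ)}) :=
      (Ideal.liesOver_span_iff hPp.ne_top (Nat.prime_iff_prime_int.1 hq)).mpr hmem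
    have h2 := Ideal.IsDedekindDomain.ramificationIdx_eq_normalizedFactors_count
      (Ideal.span {(q : ℤ)}) P (by rw [hmap]; exact hq0)
    rw [hmap, Ideal.ramificationIdx_eq_one_of_isUnramifiedAt] at h2
    exact h2.symm.le
  · rw [Multiset.count_eq_zero_of_notMem hP]
    exact Nat.zero_le _

/-- a prime ideal which contains `r` contains a prime factor `p` of `r` -/
theorem nrc_prime (r : ℕ) (hr : r ≠ 0) (P : Ideal (𝓞 F)) (hP : P.IsPrime)
    (h : (r : 𝓞 F) ∈ P) : ∃ p, p.Prime ∧ p ∣ r ∧ (p : 𝓞 F) ∈ P := by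
  induction r using Nat.recOnMul with
  | zero => exact absurd rfl hr
  | one =>
    rw [Nat.cast_one] at h
    exact absurd ((Ideal.eq_top_iff_one P).2 h) hP.ne_top
  | prime p hp => exact ⟨p, hp, dvd_rfl, h⟩
  | mul a b ha hb =>
    rw [Nat.cast_mul] at h
    rcases hP.mem_or_mem h with h1 | h1
    · obtain ⟨p, h2, h3, h4⟩ := ha (left_ne_zero_of_mul hr) h1
      exact ⟨p, h2, h3.mul_right b, h4⟩
    · obtain ⟨p, h2, h3, h4⟩ := hb (right_ne_zero_of_mul hr) h1
      exact ⟨p, h2, h3.mul_left a, h4⟩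

theorem nrc_bez {R : Type} [CommRing R] (p r' : ℕ) (h : p.Coprime r') :
    ∃ u v : R, u * (p : R) + v * (r' : R) = 1 := by
  obtain ⟨u, v, huv⟩ : ∃ u v : ℤ, u * (p : ℤ) + v * (r' : ℤ) = 1 :=
    Nat.isCoprime_iff_coprime.2 h
  exact ⟨u, v, by exact_mod_cast congrArg (Int.cast (R := R)) huv⟩

/-- the element -/
theorem nrc_elt (p r' : ℕ) (hp : p.Prime) (hd : ¬ ((p : ℤ) ∣ discr F)) (hc : p.Coprime r')
    (P : Ideal (𝓞 F)) (hP : P.IsPrime) (hpP : (p : 𝓞 F) ∈ P) (c : 𝓞 F) :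
    ∃ a : 𝓞 F, (∀ x ∈ P, (a - 1) * x ∈ Ideal.span {((p * r' : ℕ) : 𝓞 F)}) ∧
      Ideal.Quotient.mk P a = Ideal.Quotient.mk P c := by
  have hP0 : P ≠ ⊥ := by
    rintro rfl
    rw [Ideal.mem_bot] at hpP
    exact hp.ne_zero (by exact_mod_cast hpP)
  have hmax : P.IsMaximal := hP.isMaximal hP0
  have hle : Ideal.span {((p * r' : ℕ) : 𝓞 F)} ≤ P := by
    rw [Ideal.span_singleton_le_iff_mem, Nat.cast_mul]
    exact Ideal.mul_mem_right _ _ hpP
  obtain ⟨Q, hQ⟩ := Ideal.dvd_iff_le.2 hle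
  have hPQ : P ⊔ Q = ⊤ := by
    by_contra hne
    have hQP : Q ≤ P := by
      have : P ⊔ Q = P := (hmax.eq_of_le hne le_sup_left).symm
      exact this ▸ le_sup_right
    have h1 : ((p * r' : ℕ) : 𝓞 F) ∈ P * P := by
      have : Ideal.span {((p * r' : ℕ) : 𝓞 F)} ≤ P * P := by
        rw [hQ]
        exact Ideal.mul_mono_right hQP
      exact this (Ideal.mem_span_singleton_self _)
    obtain ⟨u, v, huv⟩ := nrc_bez (R := 𝓞 F) p r' hc
    have h2 : (p : 𝓞 F) ∈ P * P := by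
      have : (p : 𝓞 F) = u * ((p : 𝓞 F) * p) + v * ((p * r' : ℕ) : 𝓞 F) := by
        push_cast
        linear_combination -(p : 𝓞 F) * huv
      rw [this]
      exact Ideal.add_mem _ (Ideal.mul_mem_left _ _ (Ideal.mul_mem_mul hpP hpP))
        (Ideal.mul_mem_left _ _ h1)
    have h3 : P * P ∣ qi F p := by
      rw [Ideal.dvd_iff_le]
      unfold qi
      rw [Ideal.span_singleton_le_iff_mem]
      exact h2
    have h4 := nrc_sqfree p hp hd P h3
    rw [Ideal.isUnit_iff] at h4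
    exact hP.ne_top h4
  obtain ⟨x, hx, q, hq, hxq⟩ := Submodule.mem_sup.1 (hPQ ▸ Submodule.mem_top (x := (1 : 𝓞 F)))
  refine ⟨1 + q * (c - 1), fun y hy => ?_, ?_⟩
  · rw [hQ]
    have : (1 + q * (c - 1) - 1) * y = y * (q * (c - 1)) := by ring
    rw [this]
    exact Ideal.mul_mem_mul hy (Ideal.mul_mem_right _ _ hq)
  · have hq1 : Ideal.Quotient.mk P q = 1 := by
      have h5 := congrArg (Ideal.Quotient.mk P) hxq
      rw [map_add, Ideal.Quotient.eq_zero_iff_mem.2 hx, zero_add, map_one] at h5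
      exact h5
    rw [map_add, map_mul, map_sub, hq1, map_one]
    ring

theorem nrc_unit (p r' : ℕ) (hp : p.Prime) (hr' : 0 < r')
    (χ : DirichletCharacter ℂ (p * r')) (hprim : χ.IsPrimitive) :
    ∃ u : (ZMod (p * r'))ˣ, ZMod.castHom (dvd_mul_left r' p) (ZMod r') (u : ZMod (p * r')) = 1 ∧
      χ (u : ZMod (p * r')) ≠ 1 := by
  have hne : NeZero (p * r') := ⟨(Nat.mul_pos hp.pos hr').ne'⟩
  have h1 : ¬ DirichletCharacter.FactorsThrough χ r' := by
    intro h
    have h2 : χ.conductor ≤ r' := Nat.sInf_le h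
    have h3 : χ.conductor = p * r' := hprim
    rw [h3] at h2
    have := hp.two_le
    nlinarith
  rw [DirichletCharacter.factorsThrough_iff_ker_unitsMap (dvd_mul_left r' p),
    SetLike.not_le_iff_exists] at h1
  obtain ⟨u, hu1, hu2⟩ := h1
  refine ⟨u, ?_, fun h => hu2 ?_⟩
  · rw [MonoidHom.mem_ker] at hu1
    have := congrArg Units.val hu1
    exact this
  · rw [MonoidHom.mem_ker, Units.ext_iff, MulChar.coe_toUnitHom, Units.val_one]
    exact h

theorem nrc_key (p r' : ℕ) (hp : p.Prime) (hr' : 0 < r') (hd : ¬ ((p : ℤ) ∣ discr F))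
    (hc : p.Coprime r') (χ : DirichletCharacter ℂ (p * r')) (hprim : χ.IsPrimitive)
    (P : Ideal (𝓞 F)) (hP : P.IsPrime) (hpP : (p : 𝓞 F) ∈ P) :
    ∃ (a : 𝓞 F) (u : (ZMod (p * r'))ˣ),
      (∀ x ∈ P, (a - 1) * x ∈ Ideal.span {((p * r' : ℕ) : 𝓞 F)}) ∧
      ((Algebra.norm ℤ a : ℤ) : ZMod (p * r')) = u ∧ χ (u : ZMod (p * r')) ≠ 1 := by
  have := Fact.mk hp
  have hcp := nrc_charP p hp P hP hpP
  letI : Algebra (ZMod p) (𝓞 F ⧸ P) := ZMod.algebra _ p
  obtain ⟨u, hu1, hu2⟩ := nrc_unit p r' hp hr' χ hprim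
  obtain ⟨n, hn⟩ := ZMod.intCast_surjective (u : ZMod (p * r'))
  obtain ⟨c, hc1⟩ := nrc_surj p P hP hpP (n : ZMod p)
  obtain ⟨a, ha1, ha2⟩ := nrc_elt p r' hp hd hc P hP hpP c
  refine ⟨a, u, ha1, ?_, hu2⟩
  have hmp : ((Algebra.norm ℤ a : ℤ) : ZMod p) = (n : ZMod p) := by
    rw [nrc_norm p P a fun x hx => ?_, ha2, hc1]
    obtain ⟨y, hy⟩ := Ideal.mem_span_singleton'.1 (ha1 x hx)
    rw [← hy, Nat.cast_mul]
    exact Ideal.mem_span_singleton'.2 ⟨y * r', by ring⟩
  have hmr : ((Algebra.norm ℤ a : ℤ) : ZMod r') = (n : ZMod r') := by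
    have h1 : a - 1 ∈ Ideal.span {(r' : 𝓞 F)} := by
      obtain ⟨u', v', huv⟩ := nrc_bez (R := 𝓞 F) p r' hc
      obtain ⟨y, hy⟩ := Ideal.mem_span_singleton'.1 (ha1 p hpP)
      rw [Nat.cast_mul] at hy
      refine Ideal.mem_span_singleton'.2 ⟨u' * y * p + v' * (a - 1), ?_⟩
      linear_combination u' * hy + (a - 1) * huv
    rw [Pool.Agent.H92.RC.norm_cong_one r' a h1]
    rw [← hn, map_intCast] at hu1
    exact hu1.symm
  rw [← hn]
  rw [ZMod.intCast_eq_intCast_iff_dvd_sub] at hmp hmr ⊢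
  push_cast
  exact (Nat.isCoprime_iff_coprime.2 hc).mul_dvd hmp hmr

end one

theorem pf_NRC : T_NRC := by
  intro F _ _ _ r χ hr hok hprim
  have hr0 : r ≠ 0 := by omega
  have : NeZero r := ⟨hr0⟩
  have : Nontrivial (ZMod r) := ZMod.nontrivial_iff.2 (by omega)
  have hre : ∀ (v : RP F) (x : F), 0 < re v x := fun v _ =>
    absurd v.2 (InfinitePlace.not_isReal_iff_isComplex.2 (IsTotallyComplex.isComplex v.1))
  refine ⟨{ f := qi F r
            S := ∅
            ψ := fun I => χ ((Ideal.absNorm I : ℕ) : ZMod r)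
            f_ne := ?_
            map_one := ?_
            map_mul := ?_
            map_bot := ?_
            norm_one := ?_
            eq_zero := ?_
            princ := ?_
            prim := ?_ }, rfl, fun _ => rfl⟩
  · unfold qi
    rw [Ne, Ideal.span_singleton_eq_bot]
    exact_mod_cast hr0
  · rw [Ideal.absNorm_top, Nat.cast_one, _root_.map_one]
  · intro I J
    rw [_root_.map_mul, Nat.cast_mul, _root_.map_mul]
  · rw [Ideal.absNorm_bot, Nat.cast_zero]
    exact MulChar.map_zero χ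
  · intro I hI h
    have h1 := Pool.Agent.H92.RC.absNorm_coprime r I hI h
    have h2 : IsUnit ((Ideal.absNorm I : ℕ) : ZMod r) := (ZMod.isUnit_iff_coprime _ _).2 h1
    obtain ⟨u, hu⟩ := h2
    rw [← hu]
    exact DirichletCharacter.unit_norm_eq_one χ u
  · intro I h
    apply MulChar.map_nonunit
    intro h1
    exact h (Pool.Agent.H92.RC.sup_eq_top_of_coprime r I ((ZMod.isUnit_iff_coprime _ _).1 h1))
  · intro a ha h
    rw [Pool.Agent.H92.RC.absNorm_cong_one r a ha h fun v => hre v _, _root_.map_one]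
    unfold sg
    rw [Finset.prod_empty]
  · intro P hP h
    have hrP : (r : 𝓞 F) ∈ P := h (Ideal.mem_span_singleton_self _)
    obtain ⟨p, hp, ⟨r', rfl⟩, hpP⟩ := nrc_prime r hr0 P hP hrP
    have hr' : 0 < r' := Nat.pos_of_ne_zero (right_ne_zero_of_mul hr0)
    have hcop : p.Coprime r' := (Nat.squarefree_mul_iff.1 hok.1).1
    have hd : ¬ ((p : ℤ) ∣ discr F) :=
      (hok.2 p (Nat.mem_primeFactors.2 ⟨hp, dvd_mul_right _ _, hr0⟩)).2
    obtain ⟨a, u, ha1, ha2, ha3⟩ := nrc_key p r' hp hr' hd hcop χ hprim P hP hpP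
    have ha0 : a ≠ 0 := by
      rintro rfl
      rw [Algebra.norm_zero, Int.cast_zero] at ha2
      exact u.ne_zero ha2.symm
    have hpos : 0 < Algebra.norm ℤ a := by
      have h1 : 0 < Algebra.norm ℚ (a : F) :=
        Pool.Agent.H92.RC.norm_pos_of_totpos _ (RingOfIntegers.coe_ne_zero_iff.2 ha0)
          fun v => hre v _
      rw [← Algebra.coe_norm_int] at h1
      exact_mod_cast h1
    have hN : ((Ideal.absNorm (Ideal.span {a}) : ℕ) : ZMod (p * r')) = u := by
      rw [Ideal.absNorm_span_singleton, ← ha2, ← Int.cast_natCast, Int.natAbs_of_nonneg hpos.le]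
    refine ⟨a, ha0, ?_, ha1, ?_⟩
    · apply Pool.Agent.H92.RC.sup_eq_top_of_coprime
      rw [← ZMod.isUnit_iff_coprime, hN]
      exact u.isUnit
    · rw [hN]
      unfold sg
      rw [Finset.prod_empty]
      exact ha3

end Pool.Agent.H67.SM
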