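import Pool.Agent.H20.SM.TW
import Pool.Agent.H65.CRG.Base
import Pool.Agent.H14.CRG.QFB
import Pool.Agent.H33.CRG.S1R
import Pool.Agent.H48.CRG.UB
import Pool.Agent.H60.CRZ.S2

/-!
# Board sm_modules, row QFw: the form with a relation and three shifts
-/

set_option autoImplicit false

namespace Pool.Agent.H67.SM

open NumberField NumberField.InfinitePlace Complex Filter Topology MeasureTheory
open Pool.Agent.H28.RC Pool.Agent.H25.HK Pool.Agent.H37.CV Pool.Agent.H65.CRZ Pool.Agent.H65.CRG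
open Pool.Agent.H31.CRG
open Pool.Agent.H60.CRZ (cpow_nS)
open Pool.Agent.H27.CV (fS_pos nS_pos mem_DS DS_down log_nS sum_mem_le)
open Pool.Agent.H14.CRG (nS_one log_mem_le hw_bd sum_ell sum_big G_low)

open scoped Classical in
/-- the form with a relation and three shifts -/
theorem qf_idN {α : Type} (N : α → ℝ) (A R₁ R₂ : Finset α) (M : ℝ) (a b w : ℂ)
    (hN : ∀ P, 2 ≤ N P) (hM : 1 ≤ M) (hR₁ : R₁ ⊆ A) (hR₂ : R₂ ⊆ A) :
    ∑ S ∈ DS N A M, ∑ T ∈ DS N A M, ((xS N A M S * xS N A M T : ℝ) : ℂ) *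
      (((nS N S : ℝ) : ℂ) ^ (-(1 + b)) * ((nS N T : ℝ) : ℂ) ^ (-(1 + a)) *
        ((gg N R₁ R₂ S T : ℝ) : ℂ) ^ (1 + w)) =
    (((GS N A M)⁻¹ ^ 2 : ℝ) : ℂ) *
      ∑ D ∈ (DS N A M).filter (fun D => Disjoint D (R₁ ∪ R₂)),
        ((nS N D : ℝ) : ℂ) ^ (w - a - b) * hw N w D / ((fS N D : ℝ) : ℂ) *
          (UR N A R₁ D M (w - b) b * UR N A R₂ D M (w - a) a) := by
  have h1 : T_S1R := Pool.Agent.H33.CRG.pf_S1R
  have hpos : ∀ P, 0 < N P := fun P => lt_of_lt_of_le two_pos (hN P)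
  have hnS : ∀ S, 0 < nS N S := fun S => Pool.Agent.H27.CV.nS_pos hN S
  obtain ⟨F, hF⟩ : ∃ F : Finset (Finset α),
    F = (DS N A M).filter (fun D => Disjoint D (R₁ ∪ R₂)) := ⟨_, rfl⟩
  have hFe : (DS N A M).filter (fun D => Disjoint D (R₁ ∪ R₂)) = F := hF.symm
  rw [hFe]
  -- the kernel
  let k : Finset α → ℂ := fun D => ∏ P ∈ D, (((N P : ℝ) : ℂ) ^ (1 + w) - 1)
  have hk : ∀ S : Finset α, ((nS N S : ℝ) : ℂ) ^ (1 + w) = ∑ D ∈ S.powerset, k D := by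
    intro S
    rw [cpow_nS hpos, ← Finset.prod_one_add]
    exact Finset.prod_congr rfl fun P _ => by ring
  have hk2 : ∀ S ∈ DS N A M, ∀ T, ((nS N ((S ∩ T) \ (R₁ ∪ R₂)) : ℝ) : ℂ) ^ (1 + w) =
      ∑ D ∈ F, if D ⊆ S ∧ D ⊆ T then k D else 0 := by
    intro S hS T
    rw [hk, ← Finset.sum_filter]
    refine Finset.sum_congr ?_ fun _ _ => rfl
    ext D
    rw [hF, Finset.mem_powerset, Finset.mem_filter, Finset.mem_filter, Finset.subset_sdiff,
      Finset.subset_inter_iff]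
    exact ⟨fun h => ⟨⟨Pool.Agent.H27.CV.DS_down hN hS h.1.1, h.2⟩, h.1⟩, fun h => ⟨h.2, h.1.2⟩⟩
  have hgg : ∀ S T : Finset α, ((gg N R₁ R₂ S T : ℝ) : ℂ) ^ (1 + w) =
      ((nS N (S ∩ R₁) : ℝ) : ℂ) ^ (1 + w) * ((nS N (T ∩ R₂) : ℝ) : ℂ) ^ (1 + w) *
        ((nS N ((S ∩ T) \ (R₁ ∪ R₂)) : ℝ) : ℂ) ^ (1 + w) := by
    intro S T
    have e : gg N R₁ R₂ S T = nS N (S ∩ R₁) * nS N (T ∩ R₂) * nS N ((S ∩ T) \ (R₁ ∪ R₂)) := by
      unfold gg
      congr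
    rw [e, Complex.ofReal_mul, Complex.mul_cpow_ofReal_nonneg (mul_pos (hnS _) (hnS _)).le
      (hnS _).le, Complex.ofReal_mul, Complex.mul_cpow_ofReal_nonneg (hnS _).le (hnS _).le]
  have e1 : ∑ S ∈ DS N A M, ∑ T ∈ DS N A M, ((xS N A M S * xS N A M T : ℝ) : ℂ) *
      (((nS N S : ℝ) : ℂ) ^ (-(1 + b)) * ((nS N T : ℝ) : ℂ) ^ (-(1 + a)) *
        ((gg N R₁ R₂ S T : ℝ) : ℂ) ^ (1 + w)) =
      ∑ D ∈ F, ∑ S ∈ DS N A M, ∑ T ∈ DS N A M, k D *
        ((if D ⊆ S then (xS N A M S : ℂ) * (((nS N S : ℝ) : ℂ) ^ (-(1 + b)) *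
            ((nS N (S ∩ R₁) : ℝ) : ℂ) ^ (1 + w)) else 0) *
          (if D ⊆ T then (xS N A M T : ℂ) * (((nS N T : ℝ) : ℂ) ^ (-(1 + a)) *
            ((nS N (T ∩ R₂) : ℝ) : ℂ) ^ (1 + w)) else 0)) := by
    refine Eq.trans ?_ Finset.sum_comm
    refine Finset.sum_congr rfl fun S hS => ?_
    refine Eq.trans ?_ Finset.sum_comm
    refine Finset.sum_congr rfl fun T _ => ?_
    rw [hgg, hk2 S hS T, Finset.mul_sum, Finset.mul_sum, Finset.mul_sum]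
    refine Finset.sum_congr rfl fun D _ => ?_
    push_cast
    by_cases hDS : D ⊆ S
    · by_cases hDT : D ⊆ T
      · rw [if_pos ⟨hDS, hDT⟩, if_pos hDS, if_pos hDT]
        ring
      · rw [if_neg (fun h => hDT h.2), if_neg hDT]
        ring
    · rw [if_neg (fun h => hDS h.1), if_neg hDS]
      ring
  rw [e1, Finset.mul_sum]
  refine Finset.sum_congr rfl fun D hD' => ?_
  rw [hF, Finset.mem_filter, Finset.disjoint_union_right] at hD'
  obtain ⟨hD, hD1, hD2⟩ := hD'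
  have e2 : ∑ S ∈ DS N A M, ∑ T ∈ DS N A M, k D *
        ((if D ⊆ S then (xS N A M S : ℂ) * (((nS N S : ℝ) : ℂ) ^ (-(1 + b)) *
            ((nS N (S ∩ R₁) : ℝ) : ℂ) ^ (1 + w)) else 0) *
          (if D ⊆ T then (xS N A M T : ℂ) * (((nS N T : ℝ) : ℂ) ^ (-(1 + a)) *
            ((nS N (T ∩ R₂) : ℝ) : ℂ) ^ (1 + w)) else 0)) =
      k D * ((∑ S ∈ (DS N A M).filter (fun S => D ⊆ S), (xS N A M S : ℂ) *
          (((nS N S : ℝ) : ℂ) ^ (-(1 + b)) * ((nS N (S ∩ R₁) : ℝ) : ℂ) ^ (1 + w))) *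
        ∑ T ∈ (DS N A M).filter (fun T => D ⊆ T), (xS N A M T : ℂ) *
          (((nS N T : ℝ) : ℂ) ^ (-(1 + a)) * ((nS N (T ∩ R₂) : ℝ) : ℂ) ^ (1 + w))) := by
    rw [Finset.sum_filter, Finset.sum_filter, Finset.sum_mul_sum, Finset.mul_sum]
    refine Finset.sum_congr rfl fun S _ => ?_
    rw [Finset.mul_sum]
  have s1 := h1 α N A D R₁ M (w - b) b hN hM hD hR₁ hD1
  have s2 := h1 α N A D R₂ M (w - a) a hN hM hD hR₂ hD2
  rw [sub_add_cancel] at s1 s2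
  rw [e2]
  have s1' : (∑ S ∈ (DS N A M).filter (fun S => D ⊆ S), (xS N A M S : ℂ) *
      (((nS N S : ℝ) : ℂ) ^ (-(1 + b)) * ((nS N (S ∩ R₁) : ℝ) : ℂ) ^ (1 + w))) =
      (-1) ^ D.card * ((nS N D : ℝ) : ℂ) ^ (-b) / ((fS N D * GS N A M : ℝ) : ℂ) *
        UR N A R₁ D M (w - b) b := s1
  have s2' : (∑ T ∈ (DS N A M).filter (fun T => D ⊆ T), (xS N A M T : ℂ) *
      (((nS N T : ℝ) : ℂ) ^ (-(1 + a)) * ((nS N (T ∩ R₂) : ℝ) : ℂ) ^ (1 + w))) =
      (-1) ^ D.card * ((nS N D : ℝ) : ℂ) ^ (-a) / ((fS N D * GS N A M : ℝ) : ℂ) *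
        UR N A R₂ D M (w - a) a := s2
  rw [s1', s2']
  -- the product
  have hf : ((fS N D : ℝ) : ℂ) = ∏ P ∈ D, ((N P - 1 : ℝ) : ℂ) := by
    unfold fS
    rw [Complex.ofReal_prod]
  have hf0 : ((fS N D : ℝ) : ℂ) ≠ 0 :=
    Complex.ofReal_ne_zero.2 (Pool.Agent.H27.CV.fS_pos hN D).ne'
  have e3 : k D * (((nS N D : ℝ) : ℂ) ^ (-a) * ((nS N D : ℝ) : ℂ) ^ (-b)) =
      ((nS N D : ℝ) : ℂ) ^ (w - a - b) * hw N w D * ((fS N D : ℝ) : ℂ) := by
    rw [cpow_nS hpos, cpow_nS hpos, cpow_nS hpos, hf]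
    unfold hw
    rw [← Finset.prod_mul_distrib, ← Finset.prod_mul_distrib, ← Finset.prod_mul_distrib,
      ← Finset.prod_mul_distrib]
    refine Finset.prod_congr rfl fun P _ => ?_
    have hP0 : ((N P : ℝ) : ℂ) ≠ 0 := Complex.ofReal_ne_zero.2 (hpos P).ne'
    have hP1 : ((N P - 1 : ℝ) : ℂ) ≠ 0 := Complex.ofReal_ne_zero.2 (by linarith [hN P])
    have h5 : ((N P : ℝ) : ℂ) ^ (w - a - b) * (((N P : ℝ) : ℂ) - ((N P : ℝ) : ℂ) ^ (-w)) =
        ((N P : ℝ) : ℂ) ^ (1 + w + (-a + -b)) - ((N P : ℝ) : ℂ) ^ (-a + -b) := by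
      rw [mul_sub, ← Complex.cpow_add _ _ hP0]
      nth_rewrite 2 [← Complex.cpow_one ((N P : ℝ) : ℂ)]
      rw [← Complex.cpow_add _ _ hP0]
      congr 2
      · ring
      · ring
    rw [mul_assoc, div_mul_cancel₀ _ hP1, h5, ← Complex.cpow_add _ _ hP0, sub_mul, one_mul,
      ← Complex.cpow_add _ _ hP0]
  have hcard : ((-1 : ℂ) ^ D.card) * (-1) ^ D.card = 1 := by
    rw [← mul_pow]
    norm_num
  by_cases hG : GS N A M = 0
  · rw [hG]
    simp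
  have hG0 : ((GS N A M : ℝ) : ℂ) ≠ 0 := Complex.ofReal_ne_zero.2 hG
  push_cast
  generalize ((nS N D : ℝ) : ℂ) ^ (-a) = u at *
  generalize ((nS N D : ℝ) : ℂ) ^ (-b) = v at *
  generalize ((nS N D : ℝ) : ℂ) ^ (w - a - b) = z at *
  generalize UR N A R₁ D M (w - b) b = ea at *
  generalize UR N A R₂ D M (w - a) a = eb at *
  generalize ((-1 : ℂ) ^ D.card) = c at *
  generalize ((fS N D : ℝ) : ℂ) = f at *
  generalize ((GS N A M : ℝ) : ℂ) = g at *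
  generalize hw N w D = h at *
  have e4 : k D * (c * v / (f * g) * ea * (c * u / (f * g) * eb)) =
      (k D * (u * v)) * (c * c) * (ea * eb) / (f * g) ^ 2 := by
    field_simp
  rw [e4, e3, hcard]
  field_simp

open scoped Classical in
/-- the form with a relation and three shifts, for the field `K` -/
theorem qf_id (K : Type) [Field K] [NumberField K] (M : ℝ) (a b w : ℂ)
    (R₁ R₂ : Finset (PrI K)) (hM : 1 ≤ M) (hR₁ : R₁ ⊆ PM K M) (hR₂ : R₂ ⊆ PM K M) :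
    QF K M a b w R₁ R₂ = (((GS np (PM K M) M)⁻¹ ^ 2 : ℝ) : ℂ) *
      ∑ D ∈ (DM K M).filter (fun D => Disjoint D (R₁ ∪ R₂)),
        ((nS np D : ℝ) : ℂ) ^ (w - a - b) * hw np w D / ((fS np D : ℝ) : ℂ) *
          (UR np (PM K M) R₁ D M (w - b) b * UR np (PM K M) R₂ D M (w - a) a) := by
  have h := qf_idN np (PM K M) R₁ R₂ M a b w Pool.Agent.H81.CV.np_two hM hR₁ hR₂
  refine Eq.trans h ?_
  congr 1
  refine Finset.sum_congr ?_ fun _ _ => rfl
  have key : ∀ (i₁ i₂ : DecidableEq (PrI K))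
      (d₁ : DecidablePred fun D : Finset (PrI K) => Disjoint D (@Union.union _
        (@Finset.instUnion _ i₁) R₁ R₂))
      (d₂ : DecidablePred fun D : Finset (PrI K) => Disjoint D (@Union.union _
        (@Finset.instUnion _ i₂) R₁ R₂)),
      @Finset.filter _ _ d₁ (DS np (PM K M) M) = @Finset.filter _ _ d₂ (DM K M) := by
    intro i₁ i₂ d₁ d₂
    have e : i₁ = i₂ := Subsingleton.elim i₁ i₂
    subst e
    have e' : d₁ = d₂ := Subsingleton.elim d₁ d₂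
    subst e'
    rfl
  exact key _ _ _ _

theorem norm_cpow_bd {x L c : ℝ} (hx : 1 ≤ x) (hxL : Real.log x ≤ L) (z : ℂ)
    (hz : ‖z‖ * L ≤ c) : ‖(x : ℂ) ^ z‖ ≤ Real.exp c := by
  have hx0 : 0 < x := by linarith
  have hl : 0 ≤ Real.log x := Real.log_nonneg hx
  rw [Complex.norm_cpow_eq_rpow_re_of_pos hx0, Real.rpow_def_of_pos hx0]
  refine Real.exp_le_exp.2 ?_
  have h1 : z.re ≤ ‖z‖ := Complex.re_le_norm z
  calc Real.log x * z.re ≤ Real.log x * ‖z‖ := mul_le_mul_of_nonneg_left h1 hl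
    _ ≤ L * ‖z‖ := mul_le_mul_of_nonneg_right hxL (norm_nonneg _)
    _ ≤ c := by rw [mul_comm]; exact hz

theorem pf_QFw : Pool.Agent.H20.SM.T_QFw := by
  classical
  have h2 : Pool.Agent.H31.CRG.T_UB := Pool.Agent.H48.CRG.pf_UB Pool.Agent.H65.CRG.Base.c_EB
  intro K _ _ C₀ hC₀
  obtain ⟨Cu, hCu, hU⟩ := h2 K (2 * C₀) (by positivity)
  obtain ⟨C₁, hG1, -, hG3⟩ := Pool.Agent.H86.CV.pf_GU Pool.Agent.H86.CV.pf_DV K
  obtain ⟨c, hc, hGl⟩ := G_low K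
  have hN : ∀ P : PrI K, 2 ≤ np P := Pool.Agent.H81.CV.np_two
  have hC₁ : 0 ≤ C₁ := by
    have := hG3 ∅
    simpa using this
  obtain ⟨H, hH⟩ : ∃ H : ℝ, H = Real.exp (3 * C₀) * Real.exp (C₀ * Real.exp C₀) := ⟨_, rfl⟩
  have hH0 : 0 < H := by rw [hH]; positivity
  refine ⟨max 1 (H * Cu ^ 2 * ((1 + C₁) / c + C₁ / c ^ 2)), le_max_left _ _, ?_⟩
  intro M a b w hM ha hb hw' R₁ R₂ hR₁ hR₂ hd hne
  have hL : 0 < Real.log M := Real.log_pos (by linarith)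
  obtain ⟨L, hLd⟩ : ∃ L, L = Real.log M := ⟨_, rfl⟩
  rw [← hLd] at hL ha hb hw' ⊢
  have hG0 : c * L ≤ GS np (PM K M) M := by rw [hLd]; exact hGl M hM
  obtain ⟨G, hGd⟩ : ∃ G, G = GS np (PM K M) M := ⟨_, rfl⟩
  rw [← hGd] at hG0
  have hGpos : 0 < G := lt_of_lt_of_le (by positivity) hG0
  have hNR : 1 ≤ nS np R₁ := nS_one hN R₁
  have hlR : 0 ≤ Real.log (nS np R₁) := Real.log_nonneg hNR
  have h2C : C₀ / L ≤ 2 * C₀ / L := div_le_div_of_nonneg_right (by linarith) hL.le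
  have ha2 : ‖a‖ ≤ 2 * C₀ / L := ha.trans h2C
  have hb2 : ‖b‖ ≤ 2 * C₀ / L := hb.trans h2C
  have hwa2 : ‖w - a‖ ≤ 2 * C₀ / L := by
    refine (norm_sub_le _ _).trans ?_
    have : 2 * C₀ / L = C₀ / L + C₀ / L := by ring
    linarith
  have hwb2 : ‖w - b‖ ≤ 2 * C₀ / L := by
    refine (norm_sub_le _ _).trans ?_
    have : 2 * C₀ / L = C₀ / L + C₀ / L := by ring
    linarith
  have hwab : ‖w - a - b‖ ≤ 3 * C₀ / L := by
    refine (norm_sub_le _ _).trans ?_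
    have h3 : 3 * C₀ / L = 2 * C₀ / L + C₀ / L := by ring
    linarith
  obtain ⟨ℓ, hℓ⟩ : ∃ ℓ : Finset (PrI K) → ℝ, ∀ D, ℓ D = ∑ P ∈ D, Real.log (np P) / (np P - 1) :=
    ⟨_, fun _ => rfl⟩
  have hℓ0 : ∀ D, 0 ≤ ℓ D := by
    intro D
    rw [hℓ]
    refine Finset.sum_nonneg fun P _ => ?_
    have h3 := hN P
    have h4 : 0 ≤ Real.log (np P) := Real.log_nonneg (by linarith)
    have h5 : 0 < np P - 1 := by linarith
    positivity
  obtain ⟨br, hbr⟩ : ∃ br : Finset (PrI K) → ℝ, ∀ D, br D =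
      (1 + Real.log (nS np R₁) + ℓ D) / L + (if nS np D * nS np R₁ ≤ M then 0 else 1) :=
    ⟨_, fun _ => rfl⟩
  have hbr0 : ∀ D, 0 ≤ br D := by
    intro D
    rw [hbr]
    have := hℓ0 D
    split_ifs <;> positivity
  -- the bound of a term
  have hterm : ∀ D ∈ DM K M, ‖((nS np D : ℝ) : ℂ) ^ (w - a - b) * hw np w D /
      ((fS np D : ℝ) : ℂ) *
      (UR np (PM K M) R₁ D M (w - b) b * UR np (PM K M) R₂ D M (w - a) a)‖ ≤
      (H * Cu ^ 2 * 2 ^ (R₁.card + R₂.card)) * ((fS np D)⁻¹ * br D) := by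
    intro D hD
    have hD' := mem_DS.1 hD
    have h4 : Real.log (nS np D) ≤ L := by
      rw [hLd]
      exact Real.log_le_log (nS_pos hN D) hD'.2
    have h5 : 0 ≤ Real.log (nS np D) := Real.log_nonneg (nS_one hN D)
    have hu2 : ‖UR np (PM K M) R₂ D M (w - a) a‖ ≤ Cu * 2 ^ R₂.card :=
      (hU M (w - a) a hM (by rw [← hLd]; exact hwa2) (by rw [← hLd]; exact ha2) D R₂ hD hR₂).1
    have hu1 : ‖UR np (PM K M) R₁ D M (w - b) b‖ ≤ Cu * 2 ^ R₁.card * br D := by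
      have h3 := hU M (w - b) b hM (by rw [← hLd]; exact hwb2) (by rw [← hLd]; exact hb2)
        D R₁ hD hR₁
      rw [← hLd, ← hℓ] at h3
      have h4 : 0 ≤ Cu * 2 ^ R₁.card := by positivity
      rw [hbr]
      split_ifs with h5
      · refine (h3.2 hne h5).trans (le_of_eq ?_)
        rw [add_zero]
        ring
      · have h6 : 0 ≤ (1 + Real.log (nS np R₁) + ℓ D) / L := by
          have := hℓ0 D
          positivity
        refine h3.1.trans ?_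
        nlinarith
    have hh : ‖hw np w D‖ ≤ Real.exp (C₀ * Real.exp C₀) := by
      apply hw_bd hN
      calc ‖w‖ * Real.log (nS np D) ≤ C₀ / L * L := by gcongr
        _ = C₀ := by field_simp
    have hz : ‖((nS np D : ℝ) : ℂ) ^ (w - a - b)‖ ≤ Real.exp (3 * C₀) := by
      refine norm_cpow_bd (nS_one hN D) h4 _ ?_
      calc ‖w - a - b‖ * L ≤ 3 * C₀ / L * L := by gcongr
        _ = 3 * C₀ := by field_simp
    have hzh : ‖((nS np D : ℝ) : ℂ) ^ (w - a - b) * hw np w D‖ ≤ H := by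
      rw [norm_mul, hH]
      exact mul_le_mul hz hh (norm_nonneg _) (Real.exp_pos _).le
    have hf := fS_pos hN D
    rw [norm_mul, norm_div, norm_mul (UR np (PM K M) R₁ D M (w - b) b), Complex.norm_real,
      Real.norm_eq_abs, abs_of_pos hf]
    calc ‖((nS np D : ℝ) : ℂ) ^ (w - a - b) * hw np w D‖ / fS np D *
          (‖UR np (PM K M) R₁ D M (w - b) b‖ * ‖UR np (PM K M) R₂ D M (w - a) a‖)
        ≤ H / fS np D * ((Cu * 2 ^ R₁.card * br D) * (Cu * 2 ^ R₂.card)) := by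
          have := hbr0 D
          gcongr
      _ = _ := by rw [pow_add]; ring
  have hsum : ∑ D ∈ DM K M, (fS np D)⁻¹ * br D ≤
      (1 + Real.log (nS np R₁)) * ((1 + C₁) / L * G + C₁) := by
    have e1 : ∑ D ∈ DM K M, (fS np D)⁻¹ * br D =
        (1 + Real.log (nS np R₁)) / L * G +
          1 / L * ∑ D ∈ DM K M, (fS np D)⁻¹ * ∑ P ∈ D, Real.log (np P) / (np P - 1) +
          ∑ D ∈ DM K M, (fS np D)⁻¹ * (if nS np D * nS np R₁ ≤ M then 0 else 1) := by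
      rw [hGd]
      unfold GS
      change _ = (1 + Real.log (nS np R₁)) / L * ∑ D ∈ DM K M, (fS np D)⁻¹ + _ + _
      rw [Finset.mul_sum, Finset.mul_sum, ← Finset.sum_add_distrib, ← Finset.sum_add_distrib]
      refine Finset.sum_congr rfl fun D _ => ?_
      rw [hbr, hℓ]
      ring
    have e2 := sum_ell hN (PM K M) M
    have e3 := sum_big hN (PM K M) M (nS np R₁) hNR
    have e4 := hG1 M (nS np R₁) (by linarith) hNR
    rw [← hGd] at e2 e3 e4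
    have e5 : ∑ D ∈ DM K M, (fS np D)⁻¹ * ∑ P ∈ D, Real.log (np P) / (np P - 1) ≤ C₁ * G :=
      e2.trans (mul_le_mul_of_nonneg_right (hG3 _) hGpos.le)
    rw [e1]
    have e6 : ∑ D ∈ DM K M, (fS np D)⁻¹ * (if nS np D * nS np R₁ ≤ M then 0 else 1) ≤
        C₁ * (1 + Real.log (nS np R₁)) := by
      refine le_trans (le_of_eq ?_) e4
      exact e3
    have e7 : 1 / L * ∑ D ∈ DM K M, (fS np D)⁻¹ * ∑ P ∈ D, Real.log (np P) / (np P - 1) ≤
        1 / L * (C₁ * G) := mul_le_mul_of_nonneg_left e5 (by positivity)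
    have e8 : 1 / L * (C₁ * G) ≤ (1 + Real.log (nS np R₁)) * (C₁ / L * G) := by
      have : 0 ≤ C₁ / L * G := by positivity
      have h9 : 1 / L * (C₁ * G) = C₁ / L * G := by ring
      rw [h9]
      nlinarith
    have e9 : (1 + Real.log (nS np R₁)) * ((1 + C₁) / L * G + C₁) =
        (1 + Real.log (nS np R₁)) / L * G + (1 + Real.log (nS np R₁)) * (C₁ / L * G) +
          C₁ * (1 + Real.log (nS np R₁)) := by ring
    rw [e9]
    linarith
  obtain ⟨F, hFs, hQ⟩ : ∃ F : Finset (Finset (PrI K)), F ⊆ DM K M ∧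
      QF K M a b w R₁ R₂ = (((GS np (PM K M) M)⁻¹ ^ 2 : ℝ) : ℂ) *
        ∑ D ∈ F, ((nS np D : ℝ) : ℂ) ^ (w - a - b) * hw np w D / ((fS np D : ℝ) : ℂ) *
          (UR np (PM K M) R₁ D M (w - b) b * UR np (PM K M) R₂ D M (w - a) a) := by
    refine ⟨_, ?_, qf_id K M a b w R₁ R₂ (by linarith) hR₁ hR₂⟩
    have key : ∀ (p : Finset (PrI K) → Prop) (i : DecidablePred p),
        @Finset.filter _ p i (DM K M) ⊆ DM K M := fun p i => Finset.filter_subset _ _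
    exact key _ _
  rw [hQ, ← hGd, norm_mul, Complex.norm_real, Real.norm_eq_abs, abs_of_nonneg (by positivity)]
  have hfin : ‖∑ D ∈ F,
        ((nS np D : ℝ) : ℂ) ^ (w - a - b) * hw np w D / ((fS np D : ℝ) : ℂ) *
          (UR np (PM K M) R₁ D M (w - b) b * UR np (PM K M) R₂ D M (w - a) a)‖ ≤
      (H * Cu ^ 2 * 2 ^ (R₁.card + R₂.card)) *
        ((1 + Real.log (nS np R₁)) * ((1 + C₁) / L * G + C₁)) := by
    refine (norm_sum_le _ _).trans ((Finset.sum_le_sum fun D hD => hterm D (hFs hD)).trans ?_)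
    refine (Finset.sum_le_sum_of_subset_of_nonneg hFs ?_).trans ?_
    · intro D _ _
      have h3 := hbr0 D
      have h4 := fS_pos hN D
      positivity
    · rw [← Finset.mul_sum]
      exact mul_le_mul_of_nonneg_left hsum (by positivity)
  have hinv : G⁻¹ ≤ 1 / (c * L) := by
    rw [inv_eq_one_div]
    exact one_div_le_one_div_of_le (by positivity) hG0
  have hmain : G⁻¹ ^ 2 * ((1 + C₁) / L * G + C₁) ≤ ((1 + C₁) / c + C₁ / c ^ 2) / L ^ 2 := by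
    have e1 : G⁻¹ ^ 2 * ((1 + C₁) / L * G + C₁) = (1 + C₁) / L * G⁻¹ + C₁ * G⁻¹ ^ 2 := by
      field_simp
    have e2 : ((1 + C₁) / c + C₁ / c ^ 2) / L ^ 2 =
        (1 + C₁) / L * (1 / (c * L)) + C₁ * (1 / (c * L)) ^ 2 := by
      field_simp
    rw [e1, e2]
    have h3 : 0 ≤ (1 + C₁) / L := by positivity
    have h4 : 0 ≤ G⁻¹ := by positivity
    gcongr
  refine (mul_le_mul_of_nonneg_left hfin (by positivity : (0 : ℝ) ≤ G⁻¹ ^ 2)).trans ?_
  calc G⁻¹ ^ 2 * ((H * Cu ^ 2 * 2 ^ (R₁.card + R₂.card)) *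
        ((1 + Real.log (nS np R₁)) * ((1 + C₁) / L * G + C₁)))
      = (H * Cu ^ 2 * 2 ^ (R₁.card + R₂.card)) * (1 + Real.log (nS np R₁)) *
        (G⁻¹ ^ 2 * ((1 + C₁) / L * G + C₁)) := by ring
    _ ≤ (H * Cu ^ 2 * 2 ^ (R₁.card + R₂.card)) * (1 + Real.log (nS np R₁)) *
        (((1 + C₁) / c + C₁ / c ^ 2) / L ^ 2) :=
        mul_le_mul_of_nonneg_left hmain (by positivity)
    _ = (H * Cu ^ 2 * ((1 + C₁) / c + C₁ / c ^ 2)) * 2 ^ (R₁.card + R₂.card) *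
        (1 + Real.log (nS np R₁)) / L ^ 2 := by ring
    _ ≤ max 1 (H * Cu ^ 2 * ((1 + C₁) / c + C₁ / c ^ 2)) * 2 ^ (R₁.card + R₂.card) *
        (1 + Real.log (nS np R₁)) / L ^ 2 := by
        gcongr
        exact le_max_right _ _

end Pool.Agent.H67.SM
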