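import Pool.Agent.H67.SM.QFw
import Pool.Agent.H37.CV.All

/-!
# Board sm_modules, row SDw: the form without a relation, three shifts
-/

set_option autoImplicit false

open NumberField NumberField.InfinitePlace Complex Filter Topology MeasureTheory

namespace Pool.Agent.H67.SM

section PartSum

open Set

/-- partial summation -/
theorem part_sum {ι : Type} (s : Finset ι) (c v : ι → ℝ) (l ρ e A B : ℝ) (g g' : ℝ → ℂ)
    (hl : 0 ≤ l) (hv : ∀ i ∈ s, 0 ≤ v i ∧ v i ≤ l) (hg : ∀ x, HasDerivAt g (g' x) x)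
    (hg' : Continuous g') (hA : ‖g l‖ ≤ A) (hB : ∀ x ∈ Icc 0 l, ‖g' x‖ ≤ B) (he : 0 ≤ e)
    (G : ℝ → ℝ) (hG : ∀ x, G x = ∑ i ∈ s, if v i ≤ x then c i else 0)
    (hGe : ∀ x ∈ Icc 0 l, |G x - ρ * x| ≤ e) :
    ‖∑ i ∈ s, (c i : ℂ) * g (v i) - (ρ : ℂ) * ∫ x in (0 : ℝ)..l, g x‖ ≤ (A + B * l) * e := by
  classical
  have hgc : Continuous g := continuous_iff_continuousAt.2 fun x => (hg x).continuousAt
  have I1 : ∀ i ∈ s, ∫ x in Icc 0 l, (Ici (v i)).indicator g' x = g l - g (v i) := by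
    intro i hi
    obtain ⟨h0, h1⟩ := hv i hi
    rw [setIntegral_indicator measurableSet_Ici]
    have hs : Icc (0 : ℝ) l ∩ Ici (v i) = Icc (v i) l := by
      ext x
      simp only [mem_inter_iff, mem_Icc, mem_Ici]
      exact ⟨fun h => ⟨h.2, h.1.2⟩, fun h => ⟨⟨h0.trans h.1, h.2⟩, h.1⟩⟩
    rw [hs, integral_Icc_eq_integral_Ioc, ← intervalIntegral.integral_of_le h1,
      intervalIntegral.integral_eq_sub_of_hasDerivAt (fun x _ => hg x)
        (hg'.intervalIntegrable _ _)]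
  have hgi : IntegrableOn g' (Icc 0 l) := hg'.continuousOn.integrableOn_Icc
  have I3 : ∀ i ∈ s, Integrable (fun x => (c i : ℂ) * (Ici (v i)).indicator g' x)
      (volume.restrict (Icc 0 l)) := fun i _ => (hgi.indicator measurableSet_Ici).const_mul _
  have I4 : ∀ x, ((G x : ℝ) : ℂ) * g' x = ∑ i ∈ s, (c i : ℂ) * (Ici (v i)).indicator g' x := by
    intro x
    rw [hG, Complex.ofReal_sum, Finset.sum_mul]
    refine Finset.sum_congr rfl fun i _ => ?_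
    by_cases h : v i ≤ x
    · rw [if_pos h, Set.indicator_of_mem (Set.mem_Ici.2 h)]
    · rw [if_neg h, Set.indicator_of_notMem (fun h' => h (Set.mem_Ici.1 h'))]
      simp
  have I5 : Integrable (fun x => ((G x : ℝ) : ℂ) * g' x) (volume.restrict (Icc 0 l)) := by
    have : (fun x => ((G x : ℝ) : ℂ) * g' x) =
        fun x => ∑ i ∈ s, (c i : ℂ) * (Ici (v i)).indicator g' x := funext I4
    rw [this]
    exact integrable_finsetSum _ I3
  have I6 : ∫ x in Icc 0 l, ((G x : ℝ) : ℂ) * g' x = ∑ i ∈ s, (c i : ℂ) * (g l - g (v i)) := by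
    have : (fun x => ((G x : ℝ) : ℂ) * g' x) =
        fun x => ∑ i ∈ s, (c i : ℂ) * (Ici (v i)).indicator g' x := funext I4
    rw [this, integral_finsetSum _ I3]
    refine Finset.sum_congr rfl fun i hi => ?_
    rw [integral_const_mul, I1 i hi]
  have I7 : ((G l : ℝ) : ℂ) = ∑ i ∈ s, (c i : ℂ) := by
    rw [hG, Complex.ofReal_sum]
    exact Finset.sum_congr rfl fun i hi => by rw [if_pos (hv i hi).2]
  have hxg : Continuous (fun x : ℝ => (x : ℂ) * g' x) := Complex.continuous_ofReal.mul hg'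
  have I8 : ∫ x in Icc 0 l, (x : ℂ) * g' x = (l : ℂ) * g l - ∫ x in (0 : ℝ)..l, g x := by
    have h1 : ∫ x in (0 : ℝ)..l, (g x + (x : ℂ) * g' x) = (l : ℂ) * g l := by
      have h2 : ∀ x ∈ uIcc (0 : ℝ) l, HasDerivAt (fun y : ℝ => (y : ℂ) * g y)
          (g x + (x : ℂ) * g' x) x := by
        intro x _
        have h3 : HasDerivAt (fun y : ℝ => (y : ℂ)) 1 x := by
          exact Complex.ofRealCLM.hasDerivAt
        have h4 := h3.mul (hg x)
        refine h4.congr_deriv ?_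
        ring
      rw [intervalIntegral.integral_eq_sub_of_hasDerivAt h2
        ((hgc.add hxg).intervalIntegrable _ _)]
      simp
    rw [intervalIntegral.integral_add (hgc.intervalIntegrable _ _)
      (hxg.intervalIntegrable _ _)] at h1
    rw [integral_Icc_eq_integral_Ioc, ← intervalIntegral.integral_of_le hl, ← h1]
    ring
  have I9 : ∫ x in Icc 0 l, (((G x : ℝ) : ℂ) * g' x - (ρ : ℂ) * ((x : ℂ) * g' x)) =
      (∑ i ∈ s, (c i : ℂ) * (g l - g (v i))) -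
        (ρ : ℂ) * ((l : ℂ) * g l - ∫ x in (0 : ℝ)..l, g x) := by
    rw [integral_sub I5 (hxg.continuousOn.integrableOn_Icc.const_mul _), I6, integral_const_mul,
      I8]
  have I10 : ‖∫ x in Icc 0 l, (((G x : ℝ) : ℂ) * g' x - (ρ : ℂ) * ((x : ℂ) * g' x))‖ ≤
      (e * B) * l := by
    have h1 : (volume (Icc (0 : ℝ) l)) < ⊤ := by
      rw [Real.volume_Icc]
      exact ENNReal.ofReal_lt_top
    have h2 := norm_setIntegral_le_of_norm_le_const (μ := volume) (s := Icc (0 : ℝ) l)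
      (f := fun x => ((G x : ℝ) : ℂ) * g' x - (ρ : ℂ) * ((x : ℂ) * g' x)) (C := e * B) h1 ?_
    · rw [Real.volume_real_Icc_of_le hl, sub_zero] at h2
      exact h2
    · intro x hx
      have h3 : ((G x : ℝ) : ℂ) * g' x - (ρ : ℂ) * ((x : ℂ) * g' x) =
          ((G x - ρ * x : ℝ) : ℂ) * g' x := by
        push_cast
        ring
      rw [h3, norm_mul, Complex.norm_real, Real.norm_eq_abs]
      exact mul_le_mul (hGe x hx) (hB x hx) (norm_nonneg _) he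
  have I11 : ∑ i ∈ s, (c i : ℂ) * g (v i) - (ρ : ℂ) * ∫ x in (0 : ℝ)..l, g x =
      ((G l - ρ * l : ℝ) : ℂ) * g l -
        ∫ x in Icc 0 l, (((G x : ℝ) : ℂ) * g' x - (ρ : ℂ) * ((x : ℂ) * g' x)) := by
    rw [I9]
    have h1 : ∑ i ∈ s, (c i : ℂ) * (g l - g (v i)) =
        (∑ i ∈ s, (c i : ℂ)) * g l - ∑ i ∈ s, (c i : ℂ) * g (v i) := by
      rw [Finset.sum_mul, ← Finset.sum_sub_distrib]
      exact Finset.sum_congr rfl fun i _ => by ring
    rw [h1, ← I7]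
    push_cast
    ring
  rw [I11]
  refine (norm_sub_le _ _).trans ?_
  have h1 : ‖((G l - ρ * l : ℝ) : ℂ) * g l‖ ≤ e * A := by
    rw [norm_mul, Complex.norm_real, Real.norm_eq_abs]
    exact mul_le_mul (hGe l ⟨hl, le_rfl⟩) hA (norm_nonneg _) he
  have h2 : (A + B * l) * e = e * A + e * B * l := by ring
  rw [h2]
  exact add_le_add h1 I10

end PartSum

section Main

open Pool.Agent.H65.CRZ Pool.Agent.H28.RC Pool.Agent.H96.CV
open Pool.Agent.H37.CV hiding two_le_np fS_pos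
open Pool.Agent.H25.HK hiding T_GA FF
open Pool.Agent.H65.CRG (QF)
open Pool.Agent.H31.CRG (cR)
open Pool.Agent.H11.CRZ (sum_sg sg sg_nonneg hw_bound fin_est)
open Pool.Agent.H20.SM (FFw)

theorem UR_empty {α : Type} (N : α → ℝ) (A D : Finset α) (M : ℝ) (a b : ℂ) :
    Pool.Agent.H31.CRG.UR N A ∅ D M a b = Eb N A D (M / nS N D) b := by
  classical
  unfold Pool.Agent.H31.CRG.UR
  rw [Finset.powerset_empty, Finset.sum_singleton]
  have h1 : nS N ∅ = 1 := by simp [nS]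
  have h2 : cR N a ∅ = 1 := by simp [cR]
  rw [h1, h2, mul_one, Finset.union_empty, Finset.card_empty, pow_zero, one_mul, mul_one]

theorem QF_empty (K : Type) [Field K] [NumberField K] (M : ℝ) (a b w : ℂ) (hM : 1 ≤ M) :
    QF K M a b w ∅ ∅ = (((GS np (PM K M) M)⁻¹ ^ 2 : ℝ) : ℂ) *
      ∑ D ∈ DM K M, ((nS np D : ℝ) : ℂ) ^ (w - a - b) * hw np w D / ((fS np D : ℝ) : ℂ) *
          (Eb np (PM K M) D (M / nS np D) b * Eb np (PM K M) D (M / nS np D) a) := by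
  classical
  rw [qf_id K M a b w ∅ ∅ hM (Finset.empty_subset _) (Finset.empty_subset _)]
  congr 1
  refine Finset.sum_congr ?_ fun D _ => ?_
  · refine Finset.filter_true_of_mem fun D _ => ?_
    simp
  · rw [UR_empty, UR_empty]

/-- the derivative of the integrand of the main term -/
noncomputable def gd (a b z : ℂ) (l v : ℝ) : ℂ :=
  cexp (z * v) * (z * ((1 + a * ((l - v : ℝ) : ℂ)) * (1 + b * ((l - v : ℝ) : ℂ))) -
    a * (1 + b * ((l - v : ℝ) : ℂ)) - b * (1 + a * ((l - v : ℝ) : ℂ)))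

/-- the integrand of the main term -/
noncomputable def gf (a b z : ℂ) (l v : ℝ) : ℂ :=
  cexp (z * v) * ((1 + a * ((l - v : ℝ) : ℂ)) * (1 + b * ((l - v : ℝ) : ℂ)))

theorem gf_deriv (a b z : ℂ) (l x : ℝ) : HasDerivAt (gf a b z l) (gd a b z l x) x := by
  have h0 : HasDerivAt (fun y : ℝ => (y : ℂ)) 1 x := Complex.ofRealCLM.hasDerivAt
  have h1 : HasDerivAt (fun y : ℝ => cexp (z * y)) (cexp (z * x) * (z * 1)) x :=
    (h0.const_mul z).cexp
  have h2 : ∀ c : ℂ, HasDerivAt (fun y : ℝ => 1 + c * ((l : ℂ) - (y : ℂ))) (c * (0 - 1)) x :=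
    fun c => (((hasDerivAt_const x (l : ℂ)).sub h0).const_mul c).const_add 1
  have h3 := h1.mul ((h2 a).mul (h2 b))
  have e : gf a b z l = (fun y : ℝ => cexp (z * y)) * ((fun y : ℝ => 1 + a * ((l : ℂ) - (y : ℂ))) *
      fun y : ℝ => 1 + b * ((l : ℂ) - (y : ℂ))) := by
    funext y
    simp only [gf, Pi.mul_apply, Complex.ofReal_sub]
  rw [e]
  refine h3.congr_deriv ?_
  simp only [gd, Pi.mul_apply, Complex.ofReal_sub]
  ring

theorem gd_cont (a b z : ℂ) (l : ℝ) : Continuous (gd a b z l) := by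
  unfold gd
  fun_prop

theorem one_add_bd {C₀ l v : ℝ} {a : ℂ} (hl : 0 < l) (ha : ‖a‖ ≤ C₀ / l) (h0 : 0 ≤ v)
    (h1 : v ≤ l) : ‖1 + a * ((l - v : ℝ) : ℂ)‖ ≤ 1 + C₀ := by
  refine (norm_add_le _ _).trans ?_
  rw [norm_one, norm_mul, Complex.norm_real, Real.norm_of_nonneg (by linarith)]
  have h2 : ‖a‖ * (l - v) ≤ C₀ / l * l :=
    mul_le_mul ha (by linarith) (by linarith) ((norm_nonneg _).trans ha)
  rw [div_mul_cancel₀ _ hl.ne'] at h2
  linarith

theorem exp_bd {C l v : ℝ} {z : ℂ} (hl : 0 < l) (hz : ‖z‖ ≤ C / l) (h0 : 0 ≤ v)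
    (h1 : v ≤ l) : ‖cexp (z * v)‖ ≤ Real.exp C := by
  rw [Complex.norm_exp]
  refine Real.exp_le_exp.2 ?_
  refine (Complex.re_le_norm _).trans ?_
  rw [norm_mul, Complex.norm_real, Real.norm_of_nonneg h0]
  have h2 : ‖z‖ * v ≤ C / l * l := mul_le_mul hz h1 h0 ((norm_nonneg _).trans hz)
  rwa [div_mul_cancel₀ _ hl.ne'] at h2

theorem gf_bd {C₀ l v : ℝ} {a b z : ℂ} (hC₀ : 0 < C₀) (hl : 0 < l) (ha : ‖a‖ ≤ C₀ / l)
    (hb : ‖b‖ ≤ C₀ / l) (hz : ‖z‖ ≤ 3 * C₀ / l) (h0 : 0 ≤ v) (h1 : v ≤ l) :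
    ‖gf a b z l v‖ ≤ Real.exp (3 * C₀) * (1 + C₀) ^ 2 := by
  unfold gf
  rw [norm_mul, norm_mul, pow_two]
  exact mul_le_mul (exp_bd hl hz h0 h1) (mul_le_mul (one_add_bd hl ha h0 h1)
    (one_add_bd hl hb h0 h1) (norm_nonneg _) (by linarith)) (by positivity) (Real.exp_pos _).le

theorem gd_bd {C₀ l v : ℝ} {a b z : ℂ} (hC₀ : 0 < C₀) (hl : 0 < l) (ha : ‖a‖ ≤ C₀ / l)
    (hb : ‖b‖ ≤ C₀ / l) (hz : ‖z‖ ≤ 3 * C₀ / l) (h0 : 0 ≤ v) (h1 : v ≤ l) :
    ‖gd a b z l v‖ ≤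
      Real.exp (3 * C₀) * (3 * C₀ * (1 + C₀) ^ 2 + 2 * C₀ * (1 + C₀)) / l := by
  unfold gd
  have ma := one_add_bd hl ha h0 h1
  have mb := one_add_bd hl hb h0 h1
  have n1 : ‖z * ((1 + a * ((l - v : ℝ) : ℂ)) * (1 + b * ((l - v : ℝ) : ℂ)))‖ ≤
      3 * C₀ / l * ((1 + C₀) * (1 + C₀)) := by
    rw [norm_mul, norm_mul]
    exact mul_le_mul hz (mul_le_mul ma mb (norm_nonneg _) (by linarith)) (by positivity)
      (by positivity)
  have n2 : ‖a * (1 + b * ((l - v : ℝ) : ℂ))‖ ≤ C₀ / l * (1 + C₀) := by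
    rw [norm_mul]
    exact mul_le_mul ha mb (norm_nonneg _) (by positivity)
  have n3 : ‖b * (1 + a * ((l - v : ℝ) : ℂ))‖ ≤ C₀ / l * (1 + C₀) := by
    rw [norm_mul]
    exact mul_le_mul hb ma (norm_nonneg _) (by positivity)
  rw [norm_mul]
  have n4 := (norm_sub_le (z * ((1 + a * ((l - v : ℝ) : ℂ)) * (1 + b * ((l - v : ℝ) : ℂ))) -
    a * (1 + b * ((l - v : ℝ) : ℂ))) (b * (1 + a * ((l - v : ℝ) : ℂ)))).trans
      (add_le_add (norm_sub_le _ _) le_rfl)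
  have n5 := n4.trans (add_le_add (add_le_add n1 n2) n3)
  refine (mul_le_mul (exp_bd hl hz h0 h1) n5 (norm_nonneg _) (Real.exp_pos _).le).trans
    (le_of_eq ?_)
  ring

theorem pf_SDw : Pool.Agent.H20.SM.T_SDw := by
  classical
  have h2 : T_EA := Pool.Agent.H65.CRG.Base.c_EA
  have h3 : T_EB := Pool.Agent.H65.CRG.Base.c_EB
  have h5 : T_GA := Pool.Agent.H65.CRG.Base.c_GA
  intro K _ _ C₀ η hC₀ hη
  have hρ : 0 < rho K := dedekindZeta_residue_pos K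
  obtain ⟨Ce, hCe, hEB⟩ := h3 K C₀ hC₀
  obtain ⟨ch, hch⟩ : ∃ ch, ch = Real.exp C₀ * Real.exp (C₀ * Real.exp C₀) := ⟨_, rfl⟩
  have hch0 : 0 < ch := by rw [hch]; positivity
  obtain ⟨X, hX⟩ : ∃ X, X = Real.exp (3 * C₀) := ⟨_, rfl⟩
  have hX0 : 0 < X := by rw [hX]; positivity
  obtain ⟨Cg, -, -, hCg⟩ := a_GU K
  have hCg0 : 0 ≤ Cg := by simpa using hCg ∅
  obtain ⟨A₁, hA₁⟩ : ∃ A₁, A₁ = C₀ * ch * Ce ^ 2 + C₀ * Ce ^ 2 + (1 + C₀) * (Ce * C₀) :=
    ⟨_, rfl⟩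
  obtain ⟨A₂, hA₂⟩ : ∃ A₂, A₂ = Ce + (1 + C₀) := ⟨_, rfl⟩
  have hA₁0 : 0 < A₁ := by rw [hA₁]; positivity
  have hA₂0 : 0 < A₂ := by rw [hA₂]; positivity
  obtain ⟨Ag, hAg⟩ : ∃ Ag, Ag = X * (1 + C₀) ^ 2 := ⟨_, rfl⟩
  obtain ⟨Bg, hBg⟩ : ∃ Bg, Bg = X * (3 * C₀ * (1 + C₀) ^ 2 + 2 * C₀ * (1 + C₀)) := ⟨_, rfl⟩
  have hAg0 : 0 < Ag := by rw [hAg]; positivity
  have hBg0 : 0 < Bg := by rw [hBg]; positivity
  obtain ⟨M₁, hM₁, hEA⟩ := h2 K C₀ (η / (32 * A₂ * X)) hC₀ (by positivity)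
  obtain ⟨η₃, hη₃⟩ : ∃ η₃, η₃ = min (rho K / 2) (min (rho K * η / (24 * Ag))
      (rho K * η / (16 * (Ag + Bg)))) := ⟨_, rfl⟩
  have hη₃0 : 0 < η₃ := by
    rw [hη₃]
    exact lt_min (by positivity) (lt_min (by positivity) (by positivity))
  obtain ⟨M₃, hM₃, hGA⟩ := h5 K η₃ hη₃0
  refine ⟨max M₁ (max M₃ (Real.exp (32 * (X * A₁) * Cg / η))),
    le_trans hM₁ (le_max_left _ _), ?_⟩
  intro M a b w hM ha hb hw'
  have hMM1 : M₁ ≤ M := (le_max_left _ _).trans hM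
  have hMM3 : M₃ ≤ M := (le_trans (le_max_left _ _) (le_max_right _ _)).trans hM
  have hMM4 : Real.exp (32 * (X * A₁) * Cg / η) ≤ M :=
    (le_trans (le_max_right _ _) (le_max_right _ _)).trans hM
  have hM2 : 2 ≤ M := hM₁.trans hMM1
  have hM1 : 1 ≤ M := by linarith
  have hM0 : 0 < M := by linarith
  obtain ⟨l, hl⟩ : ∃ l, l = Real.log M := ⟨_, rfl⟩
  have hl0 : 0 < l := by rw [hl]; exact Real.log_pos (by linarith)
  have hlbig : 32 * (X * A₁) * Cg / η ≤ l := by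
    rw [hl, Real.le_log_iff_exp_le hM0]
    exact hMM4
  have hG := hGA M M hMM3 hM1 le_rfl
  obtain ⟨G, hGdef⟩ : ∃ G, G = GS np (PM K M) M := ⟨_, rfl⟩
  rw [← hGdef, ← hl] at hG
  have hη₃' : η₃ ≤ rho K / 2 := by rw [hη₃]; exact min_le_left _ _
  have hG2 : G ≤ 2 * rho K * l := by
    have := (abs_le.1 hG).2
    nlinarith
  have hG0 : 0 ≤ G := by rw [hGdef]; exact GS_nonneg _ _
  have ha' := ha
  have hb' := hb
  have hw'' := hw'
  rw [← hl] at ha' hb' hw''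
  obtain ⟨z, hz⟩ : ∃ z, z = w - a - b := ⟨_, rfl⟩
  have hzb : ‖z‖ ≤ 3 * C₀ / l := by
    rw [hz]
    refine (norm_sub_le _ _).trans ?_
    have h6 := norm_sub_le w a
    have h7 : 3 * C₀ / l = C₀ / l + C₀ / l + C₀ / l := by ring
    linarith
  -- the logarithms
  obtain ⟨vv, hvv⟩ : ∃ vv : Finset (PrI K) → ℝ, vv = fun D => Real.log (nS np D) := ⟨_, rfl⟩
  have hv : ∀ D ∈ DM K M, 0 ≤ vv D ∧ vv D ≤ l := by
    intro D hD
    have h6 := (mem_DM.1 hD).2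
    rw [hvv, hl]
    exact ⟨Real.log_nonneg (one_le_nS D), Real.log_le_log (nS_pos D) h6⟩
  have hx : ∀ D ∈ DM K M, 1 ≤ M / nS np D ∧ M / nS np D ≤ M ∧
      Real.log (M / nS np D) = l - vv D := by
    intro D hD
    have h6 := (mem_DM.1 hD).2
    have h7 : 1 ≤ M / nS np D := (one_le_div (nS_pos D)).2 h6
    have h8 : M / nS np D ≤ M := div_le_self hM0.le (one_le_nS D)
    refine ⟨h7, h8, ?_⟩
    rw [Real.log_div hM0.ne' (nS_pos D).ne', hvv, hl]
  have hpow : ∀ D : Finset (PrI K), ((nS np D : ℝ) : ℂ) ^ z = cexp (z * (vv D : ℂ)) := by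
    intro D
    have h6 : ((nS np D : ℝ) : ℂ) ≠ 0 := by exact_mod_cast (nS_pos D).ne'
    rw [Complex.cpow_def_of_ne_zero h6, ← Complex.ofReal_log (nS_pos D).le, hvv, mul_comm]
  -- the values of `Eb`
  have hE : ∀ y : ℂ, ‖y‖ ≤ C₀ / Real.log M → ∀ D ∈ DM K M,
      ‖Eb np (PM K M) D (M / nS np D) y‖ ≤ Ce ∧
      ‖Eb np (PM K M) D (M / nS np D) y - (1 + y * ((l - vv D : ℝ) : ℂ))‖ ≤
        Ce * (C₀ / l) * sg D + η / (32 * A₂ * X) := by
    intro y hy D hD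
    obtain ⟨h6, h7, h12⟩ := hx D hD
    obtain ⟨h8, -⟩ := hEB M y hM2 hy (M / nS np D) (M / nS np D) h7 le_rfl
    obtain ⟨h9, h10⟩ := h8 D
    refine ⟨h9, ?_⟩
    have h11 := hEA M y hMM1 hy (M / nS np D) h6 h7
    rw [← h12]
    have e : Eb np (PM K M) D (M / nS np D) y - (1 + y * ((Real.log (M / nS np D) : ℝ) : ℂ)) =
        (Eb np (PM K M) D (M / nS np D) y - Eb np (PM K M) ∅ (M / nS np D) y) +
        (Eb np (PM K M) ∅ (M / nS np D) y - (1 + y * ((Real.log (M / nS np D) : ℝ) : ℂ))) := by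
      ring
    rw [e]
    refine (norm_add_le _ _).trans (add_le_add (h10.trans ?_) h11)
    rw [hl]
    exact mul_le_mul_of_nonneg_right (mul_le_mul_of_nonneg_left hy (by linarith)) (sg_nonneg D)
  -- one term
  have hT : ∀ D ∈ DM K M, ‖((nS np D : ℝ) : ℂ) ^ z * hw np w D *
      (Eb np (PM K M) D (M / nS np D) b * Eb np (PM K M) D (M / nS np D) a) -
      gf a b z l (vv D)‖ ≤ X * A₁ / l * sg D + η / 32 := by
    intro D hD
    obtain ⟨a1, a2⟩ := hE a ha D hD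
    obtain ⟨b1, b2⟩ := hE b hb D hD
    obtain ⟨v0, v1⟩ := hv D hD
    have m1 := one_add_bd hl0 ha' v0 v1
    have hw1 := hw_bound C₀ M w D (by rw [← hl]; exact hl0) hw' (mem_DM.1 hD).2
    rw [← hch] at hw1
    have hs := sg_nonneg D
    have hw2 : ‖hw np w D - 1‖ ≤ ch * (C₀ / l * sg D) := by
      refine hw1.trans (mul_le_mul_of_nonneg_left ?_ hch0.le)
      exact mul_le_mul_of_nonneg_right hw'' hs
    obtain ⟨Ea, hEa⟩ : ∃ Ea, Ea = Eb np (PM K M) D (M / nS np D) a := ⟨_, rfl⟩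
    obtain ⟨Ebb, hEbb⟩ : ∃ Ebb, Ebb = Eb np (PM K M) D (M / nS np D) b := ⟨_, rfl⟩
    obtain ⟨H, hH⟩ : ∃ H, H = hw np w D := ⟨_, rfl⟩
    obtain ⟨ma, hma⟩ : ∃ ma, ma = 1 + a * ((l - vv D : ℝ) : ℂ) := ⟨_, rfl⟩
    obtain ⟨mb, hmb'⟩ : ∃ mb, mb = 1 + b * ((l - vv D : ℝ) : ℂ) := ⟨_, rfl⟩
    rw [← hEa, ← hma] at a2
    rw [← hEa] at a1
    rw [← hEbb, ← hmb'] at b2
    rw [← hEbb] at b1
    rw [← hma] at m1
    rw [← hH] at hw2
    have hzx : ‖cexp (z * (vv D : ℂ))‖ ≤ X := by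
      rw [hX]
      exact exp_bd hl0 hzb v0 v1
    rw [hpow D, ← hEa, ← hEbb, ← hH]
    unfold gf
    rw [← hma, ← hmb']
    have e : cexp (z * (vv D : ℂ)) * H * (Ebb * Ea) - cexp (z * (vv D : ℂ)) * (ma * mb) =
        cexp (z * (vv D : ℂ)) * ((H - 1) * (Ea * Ebb) + (Ea - ma) * Ebb + ma * (Ebb - mb)) := by
      ring
    rw [e, norm_mul]
    have n1 : ‖(H - 1) * (Ea * Ebb)‖ ≤ ch * (C₀ / l * sg D) * (Ce * Ce) := by
      rw [norm_mul, norm_mul]
      exact mul_le_mul hw2 (mul_le_mul a1 b1 (norm_nonneg _) (by linarith)) (by positivity)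
        (by positivity)
    have n2 : ‖(Ea - ma) * Ebb‖ ≤ (Ce * (C₀ / l) * sg D + η / (32 * A₂ * X)) * Ce := by
      rw [norm_mul]
      exact mul_le_mul a2 b1 (norm_nonneg _) (by positivity)
    have n3 : ‖ma * (Ebb - mb)‖ ≤
        (1 + C₀) * (Ce * (C₀ / l) * sg D + η / (32 * A₂ * X)) := by
      rw [norm_mul]
      exact mul_le_mul m1 b2 (norm_nonneg _) (by positivity)
    have n4 := (norm_add_le ((H - 1) * (Ea * Ebb) + (Ea - ma) * Ebb) (ma * (Ebb - mb))).trans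
      (add_le_add (norm_add_le _ _) le_rfl)
    have n5 := n4.trans (add_le_add (add_le_add n1 n2) n3)
    refine (mul_le_mul hzx n5 (norm_nonneg _) hX0.le).trans (le_of_eq ?_)
    rw [hA₁]
    have hη32 : X * (η / (32 * A₂ * X) * (Ce + (1 + C₀))) = η / 32 := by
      rw [← hA₂]
      field_simp
    linear_combination hη32
  -- the sum
  obtain ⟨R₁, hR₁⟩ : ∃ R₁ : ℂ, R₁ = ∑ D ∈ DM K M, (((fS np D)⁻¹ : ℝ) : ℂ) *
      (((nS np D : ℝ) : ℂ) ^ z * hw np w D *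
      (Eb np (PM K M) D (M / nS np D) b * Eb np (PM K M) D (M / nS np D) a) -
      gf a b z l (vv D)) := ⟨_, rfl⟩
  have hR₁b : ‖R₁‖ ≤ 2 * rho K * (X * A₁) * Cg + rho K * η / 16 * l := by
    rw [hR₁]
    refine (norm_sum_le _ _).trans ?_
    have h6 : ∀ D ∈ DM K M, ‖(((fS np D)⁻¹ : ℝ) : ℂ) *
      (((nS np D : ℝ) : ℂ) ^ z * hw np w D *
      (Eb np (PM K M) D (M / nS np D) b * Eb np (PM K M) D (M / nS np D) a) -
      gf a b z l (vv D))‖ ≤
        X * A₁ / l * ((fS np D)⁻¹ * sg D) + η / 32 * (fS np D)⁻¹ := by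
      intro D hD
      have h7 := (inv_pos.2 (fS_pos D)).le
      rw [norm_mul, Complex.norm_real, Real.norm_of_nonneg h7]
      refine (mul_le_mul_of_nonneg_left (hT D hD) h7).trans (le_of_eq (by ring))
    refine (Finset.sum_le_sum h6).trans ?_
    rw [Finset.sum_add_distrib, ← Finset.mul_sum, ← Finset.mul_sum]
    have h7 : ∑ D ∈ DM K M, (fS np D)⁻¹ = G := by rw [hGdef]; rfl
    rw [h7]
    have h8 : ∑ D ∈ DM K M, (fS np D)⁻¹ * sg D ≤ Cg * G := by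
      refine (sum_sg (fun P => Real.log (np P) / (np P - 1)) (fun P => div_nonneg
        (Real.log_nonneg (by linarith [two_le_np P])) (by linarith [two_le_np P])) M).trans ?_
      rw [← hGdef]
      refine mul_le_mul_of_nonneg_right ?_ hG0
      refine le_trans (le_of_eq (Finset.sum_congr rfl fun P _ => ?_)) (hCg (PM K M))
      rw [div_div, pow_two]
    have h9 : X * A₁ / l * ∑ D ∈ DM K M, (fS np D)⁻¹ * sg D ≤
        2 * rho K * (X * A₁) * Cg := by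
      calc X * A₁ / l * ∑ D ∈ DM K M, (fS np D)⁻¹ * sg D ≤
            X * A₁ / l * (Cg * (2 * rho K * l)) := by
            refine mul_le_mul_of_nonneg_left (h8.trans ?_) (by positivity)
            exact mul_le_mul_of_nonneg_left hG2 hCg0
        _ = _ := by field_simp
    have h10 : η / 32 * G ≤ rho K * η / 16 * l := by
      calc η / 32 * G ≤ η / 32 * (2 * rho K * l) :=
            mul_le_mul_of_nonneg_left hG2 (by positivity)
        _ = _ := by ring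
    linarith
  -- the main term
  have hFe : FFw a b w l = ∫ v in (0 : ℝ)..l, gf a b z l v := by
    unfold FFw gf
    rw [hz]
  obtain ⟨R₂, hR₂⟩ : ∃ R₂ : ℂ, R₂ = ∑ D ∈ DM K M, (((fS np D)⁻¹ : ℝ) : ℂ) *
      gf a b z l (vv D) - (rho K : ℂ) * FFw a b w l := ⟨_, rfl⟩
  have hR₂b : ‖R₂‖ ≤ rho K * η / 16 * l := by
    have h6 := part_sum (DM K M) (fun D => (fS np D)⁻¹) vv l (rho K) (η₃ * l) Ag (Bg / l)
      (gf a b z l) (gd a b z l) hl0.le hv (gf_deriv a b z l) (gd_cont a b z l)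
      (by rw [hAg, hX]; exact gf_bd hC₀ hl0 ha' hb' hzb hl0.le le_rfl)
      (fun x hx => by rw [hBg, hX]; exact gd_bd hC₀ hl0 ha' hb' hzb hx.1 hx.2) (by positivity)
      (fun x => ∑ D ∈ DM K M, if vv D ≤ x then (fS np D)⁻¹ else 0) (fun x => rfl) ?_
    · rw [hR₂, hFe]
      refine h6.trans ?_
      have h7 : η₃ ≤ rho K * η / (16 * (Ag + Bg)) := by
        rw [hη₃]
        exact (min_le_right _ _).trans (min_le_right _ _)
      calc (Ag + Bg / l * l) * (η₃ * l) = (Ag + Bg) * η₃ * l := by field_simp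
        _ ≤ (Ag + Bg) * (rho K * η / (16 * (Ag + Bg))) * l := by gcongr
        _ = rho K * η / 16 * l := by field_simp
    · intro x hx
      have h7 : Real.exp x ≤ M := by
        rw [← Real.le_log_iff_exp_le hM0, ← hl]
        exact hx.2
      have h8 := hGA M (Real.exp x) hMM3 (Real.one_le_exp hx.1) h7
      rw [Real.log_exp, ← hl, Pool.Agent.H63.CRZ.GS_eq h7] at h8
      refine le_trans (le_of_eq ?_) h8
      congr 2
      refine Finset.sum_congr rfl fun D _ => ?_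
      have h9 : vv D ≤ x ↔ nS np D ≤ Real.exp x := by
        rw [hvv]
        exact Real.log_le_iff_le_exp (nS_pos D)
      by_cases h10 : vv D ≤ x
      · rw [if_pos h10, if_pos (h9.1 h10)]
      · rw [if_neg h10, if_neg (fun h => h10 (h9.2 h))]
  have hFF : ‖FFw a b w l‖ ≤ Ag * l := by
    rw [hFe]
    have h6 := intervalIntegral.norm_integral_le_of_norm_le_const (a := (0 : ℝ)) (b := l)
      (f := fun v => gf a b z l v) (C := Ag) (fun v hv' => by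
        rw [Set.uIoc_of_le hl0.le] at hv'
        rw [hAg, hX]
        exact gf_bd hC₀ hl0 ha' hb' hzb hv'.1.le hv'.2)
    rw [sub_zero, abs_of_pos hl0] at h6
    exact h6
  -- the form
  have hSd : QF K M a b w ∅ ∅ =
      (((G)⁻¹ ^ 2 : ℝ) : ℂ) * ((rho K : ℂ) * FFw a b w l + (R₁ + R₂)) := by
    rw [QF_empty K M a b w hM1, ← hGdef, ← hz]
    congr 1
    have h8 : (rho K : ℂ) * FFw a b w l + (R₁ + R₂) = R₁ + ∑ D ∈ DM K M,
        (((fS np D)⁻¹ : ℝ) : ℂ) * gf a b z l (vv D) := by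
      rw [hR₂]
      ring
    rw [h8, hR₁, ← Finset.sum_add_distrib]
    refine Finset.sum_congr rfl fun D _ => ?_
    push_cast
    ring
  have hfin := fin_est (rho K) l G η₃ Ag
    (2 * rho K * (X * A₁) * Cg + rho K * η / 16 * l + rho K * η / 16 * l) (FFw a b w l)
    (R₁ + R₂) hρ hl0 hG hη₃' hFF ((norm_add_le _ _).trans (add_le_add hR₁b hR₂b))
  rw [hSd, ← hl]
  refine hfin.trans ?_
  have g1 : 6 * η₃ / rho K * (Ag * l) ≤ η / 4 * l := by
    have g2 : η₃ ≤ rho K * η / (24 * Ag) := by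
      rw [hη₃]
      exact (min_le_right _ _).trans (min_le_left _ _)
    calc 6 * η₃ / rho K * (Ag * l) ≤
        6 * (rho K * η / (24 * Ag)) / rho K * (Ag * l) := by
          refine mul_le_mul_of_nonneg_right ?_ (by positivity)
          exact div_le_div_of_nonneg_right (by linarith) hρ.le
      _ = η / 4 * l := by field_simp; ring
  have g3 : 4 / rho K * (2 * rho K * (X * A₁) * Cg + rho K * η / 16 * l +
      rho K * η / 16 * l) = 8 * (X * A₁) * Cg + η / 2 * l := by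
    field_simp
    ring
  have g4 : 8 * (X * A₁) * Cg ≤ η / 4 * l := by
    rw [div_le_iff₀ hη] at hlbig
    linarith
  rw [g3]
  linarith

end Main

end Pool.Agent.H67.SM
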