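import Pool.Agent.H20.SM.TP
import Pool.Agent.H92.RC.TWT

/-!
Row NRC of the board sm, part a: norms modulo a prime number.
-/

set_option autoImplicit false

open NumberField NumberField.InfinitePlace Complex
open scoped TensorProduct

namespace Pool.Agent.H67.SM

open Pool.Agent.H28.RC Pool.Agent.H25.HK Pool.Agent.H37.CV Pool.Agent.H20.SM

section norms

theorem nrc_one_tmul {F : Type} [Field F] (p : ℕ) (w : ZMod p ⊗[ℤ] 𝓞 F) : ∃ x : 𝓞 F, w = (1 : ZMod p) ⊗ₜ[ℤ] x := by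
  induction w using TensorProduct.induction_on with
  | zero => exact ⟨0, by rw [TensorProduct.tmul_zero]⟩
  | tmul t x =>
    obtain ⟨n, rfl⟩ := ZMod.intCast_surjective t
    refine ⟨n • x, ?_⟩
    rw [← TensorProduct.smul_tmul, zsmul_eq_mul, mul_one]
  | add u v hu hv =>
    obtain ⟨x, rfl⟩ := hu
    obtain ⟨y, rfl⟩ := hv
    exact ⟨x + y, by rw [TensorProduct.tmul_add]⟩

variable {F : Type} [Field F] [NumberField F]

theorem nrc_norm (p : ℕ) [Fact p.Prime] (P : Ideal (𝓞 F)) [Algebra (ZMod p) (𝓞 F ⧸ P)]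
    (a : 𝓞 F) (ha : ∀ x ∈ P, (a - 1) * x ∈ Ideal.span {(p : 𝓞 F)}) :
    ((Algebra.norm ℤ a : ℤ) : ZMod p) = Algebra.norm (ZMod p) (Ideal.Quotient.mk P a) := by
  -- the projection
  let π : (ZMod p ⊗[ℤ] 𝓞 F) →ₐ[ZMod p] (𝓞 F ⧸ P) :=
    Algebra.TensorProduct.lift (Algebra.ofId (ZMod p) (𝓞 F ⧸ P)) (Ideal.Quotient.mkₐ ℤ P)
      (fun _ _ => mul_comm _ _)
  have hπ : ∀ (t : ZMod p) (x : 𝓞 F), π (t ⊗ₜ[ℤ] x) =
      algebraMap (ZMod p) (𝓞 F ⧸ P) t * Ideal.Quotient.mk P x := fun t x =>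
    Algebra.TensorProduct.lift_tmul _ _ _ t x
  have hsurj : Function.Surjective π := by
    intro y
    obtain ⟨x, rfl⟩ := Ideal.Quotient.mk_surjective y
    refine ⟨1 ⊗ₜ x, ?_⟩
    rw [hπ, map_one, one_mul]
  let e : (ZMod p ⊗[ℤ] 𝓞 F) →ₗ[ZMod p] (ZMod p ⊗[ℤ] 𝓞 F) :=
    (Algebra.lmul ℤ (𝓞 F) a).baseChange (ZMod p)
  have he : ∀ (t : ZMod p) (x : 𝓞 F), e (t ⊗ₜ[ℤ] x) = t ⊗ₜ[ℤ] (a * x) := fun t x => rfl
  have hπe : ∀ w, π (e w) = Ideal.Quotient.mk P a * π w := by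
    intro w
    obtain ⟨x, rfl⟩ := nrc_one_tmul p w
    rw [he, hπ, hπ, map_mul, map_one, one_mul, one_mul]
  have h1 : LinearMap.det e = ((Algebra.norm ℤ a : ℤ) : ZMod p) := by
    show LinearMap.det ((Algebra.lmul ℤ (𝓞 F) a).baseChange (ZMod p)) = _
    rw [LinearMap.det_baseChange, Algebra.norm_apply]
    rfl
  let W : Submodule (ZMod p) (ZMod p ⊗[ℤ] 𝓞 F) := LinearMap.ker π.toLinearMap
  have hW : W ≤ W.comap e := by
    intro w hw
    have hw' : π w = 0 := hw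
    show π (e w) = 0
    rw [hπe, hw', mul_zero]
  have h2 : LinearMap.det (e.restrict hW) = 1 := by
    have : e.restrict hW = LinearMap.id := by
      ext w
      obtain ⟨w, hw⟩ := w
      have hw' : π w = 0 := hw
      show e w = w
      obtain ⟨x, rfl⟩ := nrc_one_tmul p w
      rw [hπ, map_one, one_mul, Ideal.Quotient.eq_zero_iff_mem] at hw'
      obtain ⟨y, hy⟩ := Ideal.mem_span_singleton'.1 (ha x hw')
      rw [he]
      have h3 : a * x = x + (p : ℤ) • y := by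
        rw [zsmul_eq_mul]
        push_cast
        linear_combination -hy
      rw [h3, TensorProduct.tmul_add, ← TensorProduct.smul_tmul]
      have h4 : ((p : ℤ) • (1 : ZMod p)) = 0 := by
        rw [zsmul_eq_mul]
        push_cast
        rw [ZMod.natCast_self, zero_mul]
      rw [h4, TensorProduct.zero_tmul, add_zero]
    rw [this, LinearMap.det_id]
  have h3 : LinearMap.det (W.mapQ W e hW) =
      Algebra.norm (ZMod p) (Ideal.Quotient.mk P a) := by
    let φ : ((ZMod p ⊗[ℤ] 𝓞 F) ⧸ W) ≃ₗ[ZMod p] (𝓞 F ⧸ P) :=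
      LinearMap.quotKerEquivOfSurjective π.toLinearMap hsurj
    rw [← LinearMap.det_conj (W.mapQ W e hW) φ, Algebra.norm_apply]
    refine congrArg LinearMap.det ?_
    apply LinearMap.ext
    intro y
    obtain ⟨w, rfl⟩ := hsurj y
    have h4 : φ.symm (π w) = W.mkQ w := by
      rw [LinearEquiv.symm_apply_eq]
      rfl
    show φ (W.mapQ W e hW (φ.symm (π w))) = Ideal.Quotient.mk P a * π w
    rw [h4, ← hπe]
    rfl
  rw [← h1, LinearMap.det_eq_det_mul_det W e hW, h2, h3, one_mul]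

end norms

end Pool.Agent.H67.SM
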